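import Pool.Agent.H252Z.Sel.Final

set_option autoImplicit false

open Cardinal Pool.Agent.H252Z.Sel

namespace Pool.Agent.Results.MP_4ce21c_lc.ACohenSelective

/-- If the continuum hypothesis holds in the ground model, then there is a name `F` for a family
of subsets of `ℕ` such that every condition of the forcing by finite partial functions from
`ω₂ × ω` to `2` forces that `F` is a selective independent family. -/
theorem result (hCH : (𝔠 : Cardinal.{0}) = ℵ_ 1) :
    ∃ F : (ℕ → Set (Cond ((ℵ_ 2 : Cardinal.{0}).ord.ToType × ℕ))) →
        Set (Cond ((ℵ_ 2 : Cardinal.{0}).ord.ToType × ℕ)),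
      ∀ p, p ∈ Selective F :=
  main hCH

end Pool.Agent.Results.MP_4ce21c_lc.ACohenSelective
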